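import Pool.Agent.H83.G.Targets1

/-!
# (LO) local orthogonality of caps
-/

set_option autoImplicit false

namespace Pool.Agent.H39.G

open MeasureTheory Set Pool.Agent.H83.G
open scoped ENNReal NNReal RealInnerProductSpace

variable {m : ℕ}

theorem cont_e : Continuous e := by
  unfold e
  fun_prop

theorem cont_ph : Continuous (fun p : Z m × Z m => ph p.1 p.2) := by
  unfold ph
  fun_prop

theorem cont_Lo (η : E m) (s : ℝ) : Continuous (Lo η s) := by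
  unfold Lo
  fun_prop

theorem int_TF {G : Z m → ℂ} (hG : TC G) (z : Z m) : Integrable (fun ζ : Z m => e (ph z ζ) * G ζ) := by
  have h1 : Continuous (fun ζ : Z m => e (ph z ζ) * G ζ) := by
    apply Continuous.mul
    · exact cont_e.comp (cont_ph.comp (continuous_const.prodMk continuous_id))
    · exact hG.1.continuous
  exact h1.integrable_of_hasCompactSupport hG.2.mul_left

theorem TC_zero : TC (fun _ : Z m => (0 : ℂ)) := ⟨contDiff_const, HasCompactSupport.zero⟩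

theorem TC_add {G G' : Z m → ℂ} (h : TC G) (h' : TC G') : TC (fun ζ => G ζ + G' ζ) :=
  ⟨h.1.add h'.1, h.2.add h'.2⟩

theorem TC_sum {ι : Type} (I : Finset ι) (G : ι → Z m → ℂ) (h : ∀ k ∈ I, TC (G k)) :
    TC (fun ζ => ∑ k ∈ I, G k ζ) := by
  classical
  induction I using Finset.induction_on with
  | empty => simpa using TC_zero
  | insert a I ha ih =>
    simp only [Finset.sum_insert ha]
    exact TC_add (h a (Finset.mem_insert_self _ _))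
      (ih fun k hk => h k (Finset.mem_insert_of_mem hk))

theorem TF_sum {ι : Type} (I : Finset ι) (G : ι → Z m → ℂ) (h : ∀ k ∈ I, TC (G k)) (z : Z m) :
    TF (fun ζ => ∑ k ∈ I, G k ζ) z = ∑ k ∈ I, TF (G k) z := by
  unfold TF
  simp only [Finset.mul_sum]
  exact integral_finsetSum _ fun k hk => int_TF (h k hk) z

theorem enorm_sq_eq (a : ℂ) : ‖a‖ₑ ^ 2 = ENNReal.ofReal (‖a‖ ^ 2) := by
  rw [ENNReal.ofReal_pow (norm_nonneg _), ofReal_norm]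

/-- Cauchy-Schwarz with few terms -/
theorem sum_sq_le {ι : Type} (I : Finset ι) (g : ι → ℂ) (N₀ : ℕ)
    (h : ∀ J ⊆ I, (∀ k ∈ J, g k ≠ 0) → J.card ≤ N₀) :
    ‖∑ k ∈ I, g k‖ₑ ^ 2 ≤ (N₀ : ℝ≥0∞) * ∑ k ∈ I, ‖g k‖ₑ ^ 2 := by
  classical
  set J := I.filter (fun k => g k ≠ 0) with hJ
  have h1 : ∑ k ∈ I, g k = ∑ k ∈ J, g k := by
    rw [hJ, Finset.sum_filter_ne_zero]
  have h2 : J.card ≤ N₀ := h J (Finset.filter_subset _ _) (fun k hk => (Finset.mem_filter.1 hk).2)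
  have h3 : ‖∑ k ∈ J, g k‖ ^ 2 ≤ N₀ * ∑ k ∈ J, ‖g k‖ ^ 2 := by
    calc ‖∑ k ∈ J, g k‖ ^ 2 ≤ (∑ k ∈ J, ‖g k‖) ^ 2 :=
          pow_le_pow_left₀ (norm_nonneg _) (norm_sum_le _ _) 2
      _ ≤ J.card * ∑ k ∈ J, ‖g k‖ ^ 2 := by
          exact sq_sum_le_card_mul_sum_sq
      _ ≤ N₀ * ∑ k ∈ J, ‖g k‖ ^ 2 := by
          apply mul_le_mul_of_nonneg_right _ (Finset.sum_nonneg fun k _ => by positivity)
          exact_mod_cast h2
  rw [h1, enorm_sq_eq]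
  calc ENNReal.ofReal (‖∑ k ∈ J, g k‖ ^ 2) ≤ ENNReal.ofReal (N₀ * ∑ k ∈ J, ‖g k‖ ^ 2) :=
        ENNReal.ofReal_le_ofReal h3
    _ = N₀ * ∑ k ∈ J, ‖g k‖ₑ ^ 2 := by
        rw [ENNReal.ofReal_mul (Nat.cast_nonneg _), ENNReal.ofReal_natCast,
          ENNReal.ofReal_sum_of_nonneg (fun k _ => by positivity)]
        simp only [enorm_sq_eq]
    _ ≤ N₀ * ∑ k ∈ I, ‖g k‖ₑ ^ 2 := by
        gcongr
        exact Finset.filter_subset _ _

/-- the supports -/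
theorem cap_move (D σ s r : ℝ) (η c : E m) (ζ₁ ζ₂ : Z m) (hD : 1 ≤ D) (hσ : 0 < σ) (hs : 0 < s)
    (hr : 1 ≤ r) (hsr : s ≤ D * r * σ) (hc : ‖c - η‖ ≤ D * r * σ) (h1 : 1 / 4 ≤ ζ₁.1)
    (h2 : ‖ζ₁.1⁻¹ • ζ₁.2.1 - c‖ ≤ D * σ) (h3 : ‖ζ₂‖ ≤ 1 / 1000) :
    ‖(ζ₁ + r⁻¹ • Ld η s ζ₂).1⁻¹ • (ζ₁ + r⁻¹ • Ld η s ζ₂).2.1 - c‖ ≤ 2 * D * σ := by
  have hr0 : 0 < r := by linarith
  have hri : r⁻¹ ≤ 1 := inv_le_one_of_one_le₀ hr
  have hri0 : 0 < r⁻¹ := inv_pos.2 hr0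
  have ha : |ζ₂.1| ≤ 1 / 1000 := by
    have := norm_fst_le ζ₂
    rw [Real.norm_eq_abs] at this
    linarith
  have hξ : ‖ζ₂.2.1‖ ≤ 1 / 1000 := ((norm_fst_le ζ₂.2).trans (norm_snd_le ζ₂)).trans h3
  have e1 : (ζ₁ + r⁻¹ • Ld η s ζ₂).1 = ζ₁.1 + r⁻¹ * ζ₂.1 := rfl
  have e2 : (ζ₁ + r⁻¹ • Ld η s ζ₂).2.1 = ζ₁.2.1 + r⁻¹ • (s • ζ₂.2.1 + ζ₂.1 • η) := rfl
  set a : ℝ := ζ₁.1 with hadef
  set a' : ℝ := a + r⁻¹ * ζ₂.1 with ha'
  have ha'1 : a - 1 / 1000 ≤ a' := by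
    have : |r⁻¹ * ζ₂.1| ≤ 1 / 1000 := by
      rw [abs_mul, abs_of_pos hri0]
      calc r⁻¹ * |ζ₂.1| ≤ 1 * (1 / 1000) := mul_le_mul hri ha (abs_nonneg _) zero_le_one
        _ = 1 / 1000 := one_mul _
    have := neg_abs_le (r⁻¹ * ζ₂.1)
    rw [ha']
    linarith
  have ha'0 : 0 < a' := by linarith
  have ha0 : 0 < a := by linarith
  rw [e1, e2]
  have e3 : a'⁻¹ • (ζ₁.2.1 + r⁻¹ • (s • ζ₂.2.1 + ζ₂.1 • η)) - c =
      a'⁻¹ • (a • (a⁻¹ • ζ₁.2.1 - c) + r⁻¹ • (s • ζ₂.2.1 + ζ₂.1 • (η - c))) := by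
    have e4 : c = a'⁻¹ • (a • c + r⁻¹ • (ζ₂.1 • c)) := by
      rw [smul_smul r⁻¹, ← add_smul, smul_smul, inv_mul_cancel₀ ha'0.ne', one_smul]
    have e5 : a • (a⁻¹ • ζ₁.2.1) = ζ₁.2.1 := by
      rw [smul_smul, mul_inv_cancel₀ ha0.ne', one_smul]
    conv_lhs => rw [e4]
    rw [← smul_sub, smul_sub a, e5]
    congr 1
    simp only [smul_add, smul_sub]
    abel
  rw [e3, norm_smul, Real.norm_eq_abs, abs_of_pos (inv_pos.2 ha'0), inv_mul_le_iff₀ ha'0]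
  have e6 : ‖a • (a⁻¹ • ζ₁.2.1 - c) + r⁻¹ • (s • ζ₂.2.1 + ζ₂.1 • (η - c))‖ ≤
      a * (D * σ) + 2 / 1000 * (D * σ) := by
    refine (norm_add_le _ _).trans (add_le_add ?_ ?_)
    · rw [norm_smul, Real.norm_eq_abs, abs_of_pos ha0]
      exact mul_le_mul_of_nonneg_left h2 ha0.le
    · rw [norm_smul, Real.norm_eq_abs, abs_of_pos hri0]
      have e7 : ‖s • ζ₂.2.1 + ζ₂.1 • (η - c)‖ ≤ 2 / 1000 * (D * r * σ) := by
        refine (norm_add_le _ _).trans ?_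
        rw [norm_smul, norm_smul, Real.norm_eq_abs, Real.norm_eq_abs, abs_of_pos hs,
          norm_sub_rev]
        have f1 : s * ‖ζ₂.2.1‖ ≤ (D * r * σ) * (1 / 1000) :=
          mul_le_mul hsr hξ (norm_nonneg _) (by positivity)
        have f2 : |ζ₂.1| * ‖c - η‖ ≤ (1 / 1000) * (D * r * σ) :=
          mul_le_mul ha hc (norm_nonneg _) (by norm_num)
        linarith
      calc r⁻¹ * ‖s • ζ₂.2.1 + ζ₂.1 • (η - c)‖ ≤ r⁻¹ * (2 / 1000 * (D * r * σ)) :=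
            mul_le_mul_of_nonneg_left e7 hri0.le
        _ = 2 / 1000 * (D * σ) := by field_simp
  refine e6.trans ?_
  have hDσ : 0 < D * σ := by positivity
  nlinarith

/-- one ball -/
theorem one_ball (hMOD : T_MOD) (hPLN : T_PLN) (hWT1 : T_WT1) (hSCH : T_SCH) (N N₀ : ℕ) (D : ℝ)
    (hD : 1 ≤ D) {Ξ : Z m → ℂ} {χ : Z m → ℝ} (hL : IsLow Ξ χ) : ∃ C : ℝ≥0,
    ∀ (ι : Type) (I : Finset ι) (G : ι → Z m → ℂ) (c : ι → E m) (σ s r : ℝ) (η : E m) (x : Z m),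
    0 < σ → 0 < s → 1 ≤ r → s ≤ D * r * σ → (∀ k ∈ I, ‖c k - η‖ ≤ D * r * σ) →
    (∀ k ∈ I, TC (G k)) →
    (∀ k ∈ I, ∀ ζ, G k ζ ≠ 0 → 1 / 4 ≤ ζ.1 ∧ ζ.1 ≤ 8 ∧ ‖ζ.1⁻¹ • ζ.2.1 - c k‖ ≤ D * σ) →
    (∀ (y : E m), ∀ J ⊆ I, (∀ k ∈ J, ‖y - c k‖ ≤ 2 * D * σ) → J.card ≤ N₀) →
    ∫⁻ z in {z : Z m | ‖r⁻¹ • Lo η s z - x‖ ≤ m + 1}, ‖∑ k ∈ I, TF (G k) z‖ₑ ^ 2 ≤
      C * ∑ k ∈ I, ∫⁻ z, ‖TF (G k) z‖ₑ ^ 2 * ENNReal.ofReal (wt N (r⁻¹ • Lo η s z - x)) := by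
  classical
  obtain ⟨hΞ, hsupp, hTF, hpos, hone⟩ := hL
  obtain ⟨C, hC, hdec⟩ := (hSCH m Ξ hΞ).2 N
  obtain ⟨hw1, -⟩ := hWT1 m N
  refine ⟨(N₀ : ℝ≥0) * (C ^ 2).toNNReal, ?_⟩
  intro ι I G c σ s r η x hσ hs hr hsr hcη hTC hcap hmul
  have hr0 : 0 < r := by linarith
  have hex : ∀ k ∈ I, ∃ G' : Z m → ℂ, TC G' ∧
      (∀ z, TF G' z = TF (G k) z * TF Ξ (r⁻¹ • Lo η s z - x)) ∧
      ∀ ζ, G' ζ ≠ 0 → ∃ ζ₁ ζ₂, G k ζ₁ ≠ 0 ∧ Ξ ζ₂ ≠ 0 ∧ ζ = ζ₁ + r⁻¹ • Ld η s ζ₂ :=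
    fun k hk => hMOD m (G k) Ξ η s r⁻¹ x (hTC k hk) hΞ hs (inv_pos.2 hr0)
  choose! G' hG'1 hG'2 hG'3 using hex
  have hS : TC (fun ζ => ∑ k ∈ I, G' k ζ) := TC_sum I G' hG'1
  -- few terms
  have hfew : ∀ ζ : Z m, ‖∑ k ∈ I, G' k ζ‖ₑ ^ 2 ≤ (N₀ : ℝ≥0∞) * ∑ k ∈ I, ‖G' k ζ‖ₑ ^ 2 := by
    intro ζ
    refine sum_sq_le I (fun k => G' k ζ) N₀ ?_
    intro J hJ hJ0
    refine hmul (ζ.1⁻¹ • ζ.2.1) J hJ ?_
    intro k hk
    obtain ⟨ζ₁, ζ₂, h1, h2, rfl⟩ := hG'3 k (hJ hk) ζ (hJ0 k hk)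
    obtain ⟨h3, -, h4⟩ := hcap k (hJ hk) ζ₁ h1
    exact cap_move D σ s r η (c k) ζ₁ ζ₂ hD hσ hs hr hsr (hcη k (hJ hk)) h3 h4 (hsupp ζ₂ h2)
  calc ∫⁻ z in {z : Z m | ‖r⁻¹ • Lo η s z - x‖ ≤ m + 1}, ‖∑ k ∈ I, TF (G k) z‖ₑ ^ 2
      ≤ ∫⁻ z in {z : Z m | ‖r⁻¹ • Lo η s z - x‖ ≤ m + 1}, ‖TF (fun ζ => ∑ k ∈ I, G' k ζ) z‖ₑ ^ 2 := by
        refine setLIntegral_mono_ae' ?_ (Filter.Eventually.of_forall ?_)
        · have h1 : Continuous (fun z : Z m => ‖r⁻¹ • Lo η s z - x‖) := by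
            have := cont_Lo η s
            fun_prop
          exact measurableSet_le h1.measurable measurable_const
        · intro z hz
          have h1 : TF (fun ζ => ∑ k ∈ I, G' k ζ) z =
              (∑ k ∈ I, TF (G k) z) * TF Ξ (r⁻¹ • Lo η s z - x) := by
            rw [TF_sum I G' hG'1, Finset.sum_mul]
            exact Finset.sum_congr rfl fun k hk => hG'2 k hk z
          have h2 : 1 ≤ χ (r⁻¹ • Lo η s z - x) := by
            apply hone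
            have h3 : ‖r⁻¹ • Lo η s z - x‖ ≤ m + 1 := hz
            have h4 : (0 : ℝ) ≤ m := Nat.cast_nonneg m
            linarith
          rw [h1, enorm_mul, ← hTF, mul_pow]
          refine le_mul_of_one_le_right bot_le ?_
          apply one_le_pow₀
          rw [← ofReal_norm, Complex.norm_real, Real.norm_eq_abs, abs_of_pos (by linarith)]
          exact ENNReal.one_le_ofReal.2 h2
    _ ≤ ∫⁻ z, ‖TF (fun ζ => ∑ k ∈ I, G' k ζ) z‖ₑ ^ 2 := setLIntegral_le_lintegral _ _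
    _ = ∫⁻ ζ, ‖∑ k ∈ I, G' k ζ‖ₑ ^ 2 := by
        rw [(hPLN m _ hS).1, (hPLN m _ hS).2]
    _ ≤ ∫⁻ ζ, (N₀ : ℝ≥0∞) * ∑ k ∈ I, ‖G' k ζ‖ₑ ^ 2 := lintegral_mono hfew
    _ = (N₀ : ℝ≥0∞) * ∑ k ∈ I, ∫⁻ ζ, ‖G' k ζ‖ₑ ^ 2 := by
        rw [lintegral_const_mul' _ _ (ENNReal.natCast_ne_top _), lintegral_finsetSum']
        intro k hk
        exact ((hG'1 k hk).1.continuous.enorm.measurable.pow_const 2).aemeasurable
    _ = (N₀ : ℝ≥0∞) * ∑ k ∈ I, ∫⁻ z, ‖TF (G' k) z‖ₑ ^ 2 := by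
        congr 1
        refine Finset.sum_congr rfl fun k hk => ?_
        rw [(hPLN m _ (hG'1 k hk)).1, (hPLN m _ (hG'1 k hk)).2]
    _ ≤ (N₀ : ℝ≥0∞) * ∑ k ∈ I, (((C ^ 2).toNNReal : ℝ≥0) : ℝ≥0∞) *
          ∫⁻ z, ‖TF (G k) z‖ₑ ^ 2 * ENNReal.ofReal (wt N (r⁻¹ • Lo η s z - x)) := by
        gcongr with k hk
        rw [← lintegral_const_mul' _ _ ENNReal.coe_ne_top]
        refine lintegral_mono fun z => ?_
        rw [hG'2 k hk z, enorm_mul, mul_pow]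
        have h1 : ‖TF Ξ (r⁻¹ • Lo η s z - x)‖ₑ ^ 2 ≤
            (((C ^ 2).toNNReal : ℝ≥0) : ℝ≥0∞) *
              ENNReal.ofReal (wt N (r⁻¹ • Lo η s z - x)) := by
          rw [enorm_sq_eq]
          have h2 : (((C ^ 2).toNNReal : ℝ≥0) : ℝ≥0∞) = ENNReal.ofReal (C ^ 2) := rfl
          rw [h2, ← ENNReal.ofReal_mul (by positivity)]
          apply ENNReal.ofReal_le_ofReal
          have h3 := hdec (r⁻¹ • Lo η s z - x)
          obtain ⟨h4, h5⟩ := hw1 (r⁻¹ • Lo η s z - x)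
          calc ‖TF Ξ (r⁻¹ • Lo η s z - x)‖ ^ 2 ≤ (C * wt N (r⁻¹ • Lo η s z - x)) ^ 2 :=
                pow_le_pow_left₀ (norm_nonneg _) h3 2
            _ = C ^ 2 * (wt N (r⁻¹ • Lo η s z - x) * wt N (r⁻¹ • Lo η s z - x)) := by ring
            _ ≤ C ^ 2 * (wt N (r⁻¹ • Lo η s z - x) * 1) := by
                apply mul_le_mul_of_nonneg_left _ (by positivity)
                exact mul_le_mul_of_nonneg_left h5 h4.le
            _ = C ^ 2 * wt N (r⁻¹ • Lo η s z - x) := by ring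
        calc ‖TF (G k) z‖ₑ ^ 2 * ‖TF Ξ (r⁻¹ • Lo η s z - x)‖ₑ ^ 2
            ≤ ‖TF (G k) z‖ₑ ^ 2 * ((((C ^ 2).toNNReal : ℝ≥0) : ℝ≥0∞) *
              ENNReal.ofReal (wt N (r⁻¹ • Lo η s z - x))) := by gcongr
          _ = _ := by ring
    _ = _ := by
        rw [← Finset.mul_sum, ← mul_assoc]
        push_cast
        rfl

/-- LO: local orthogonality of caps -/
theorem pf_LO (hMOD : T_MOD) (hPLN : T_PLN) (hLWX : T_LWX) (hWT1 : T_WT1) (hWT3 : T_WT3)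
    (hSCH : T_SCH) : T_LO := by
  classical
  intro m N N₀ D hN hD
  obtain ⟨Ξ, χ, hL⟩ := hLWX m
  obtain ⟨C₁, h1⟩ := one_ball hMOD hPLN hWT1 hSCH N N₀ D hD hL
  obtain ⟨C₂, -, -, h2, -, h3⟩ := hWT3 m N hN
  obtain ⟨hw1, hwc, hw2, hw3, -⟩ := hWT1 m N
  refine ⟨(((m : ℝ≥0) + 2) ^ N) * C₁ * C₂, ?_⟩
  intro ι I G c σ s r η x hσ hs hr hsr hcη hTC hcap hmul
  have hr0 : 0 < r := by linarith
  have hcTF : ∀ k ∈ I, Continuous (TF (G k)) := fun k hk => (hSCH m (G k) (hTC k hk)).1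
  have hLo := cont_Lo η s
  set F : Z m → ℝ≥0∞ := fun z => ‖∑ k ∈ I, TF (G k) z‖ₑ ^ 2 with hF
  have hFm : Measurable F := by
    have : Continuous (fun z => ∑ k ∈ I, TF (G k) z) := continuous_finsetSum _ hcTF
    exact this.enorm.measurable.pow_const 2
  set A : Zi m → Set (Z m) := fun j => {z : Z m | ‖r⁻¹ • Lo η s z - zc j‖ ≤ m + 1} with hA
  have hAm : ∀ j, MeasurableSet (A j) := by
    intro j
    have h4 : Continuous (fun z : Z m => ‖r⁻¹ • Lo η s z - zc j‖) := by fun_prop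
    exact measurableSet_le h4.measurable measurable_const
  have hpt : ∀ z : Z m, F z * ENNReal.ofReal (wt N (r⁻¹ • Lo η s z - x)) ≤
      ∑' j : Zi m, (((m : ℝ≥0∞) + 2) ^ N * ENNReal.ofReal (wt N (zc j - x))) *
        (A j).indicator F z := by
    intro z
    obtain ⟨l, hl⟩ := h3 (r⁻¹ • Lo η s z)
    refine le_trans ?_ (ENNReal.le_tsum l)
    have h4 : z ∈ A l := hl
    rw [Set.indicator_of_mem h4]
    have h5 : wt N (r⁻¹ • Lo η s z - x) ≤ ((m : ℝ) + 2) ^ N * wt N (zc l - x) := by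
      have h6 := hw2 (r⁻¹ • Lo η s z - x) (zc l - r⁻¹ • Lo η s z)
      rw [show r⁻¹ • Lo η s z - x + (zc l - r⁻¹ • Lo η s z) = zc l - x by abel] at h6
      have h7 : (((m : ℝ) + 2) ^ N)⁻¹ ≤ wt N (zc l - r⁻¹ • Lo η s z) := by
        unfold wt
        apply inv_anti₀ (by positivity)
        apply pow_le_pow_left₀ (by positivity)
        rw [norm_sub_rev]
        linarith
      have h8 : 0 < ((m : ℝ) + 2) ^ N := by positivity
      have h9 := (hw1 (r⁻¹ • Lo η s z - x)).1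
      calc wt N (r⁻¹ • Lo η s z - x) = ((m : ℝ) + 2) ^ N *
            (wt N (r⁻¹ • Lo η s z - x) * (((m : ℝ) + 2) ^ N)⁻¹) := by field_simp
        _ ≤ ((m : ℝ) + 2) ^ N * (wt N (r⁻¹ • Lo η s z - x) *
            wt N (zc l - r⁻¹ • Lo η s z)) := by
            apply mul_le_mul_of_nonneg_left _ h8.le
            exact mul_le_mul_of_nonneg_left h7 h9.le
        _ ≤ _ := mul_le_mul_of_nonneg_left h6 h8.le
    have h10 : ENNReal.ofReal (wt N (r⁻¹ • Lo η s z - x)) ≤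
        ((m : ℝ≥0∞) + 2) ^ N * ENNReal.ofReal (wt N (zc l - x)) := by
      refine (ENNReal.ofReal_le_ofReal h5).trans (le_of_eq ?_)
      rw [ENNReal.ofReal_mul (by positivity), ENNReal.ofReal_pow (by positivity),
        ENNReal.ofReal_add (Nat.cast_nonneg _) (by norm_num), ENNReal.ofReal_natCast]
      norm_num
    calc F z * ENNReal.ofReal (wt N (r⁻¹ • Lo η s z - x))
        ≤ F z * (((m : ℝ≥0∞) + 2) ^ N * ENNReal.ofReal (wt N (zc l - x))) := by gcongr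
      _ = _ := by ring
  calc ∫⁻ z, F z * ENNReal.ofReal (wt N (r⁻¹ • Lo η s z - x))
      ≤ ∫⁻ z, ∑' j : Zi m, (((m : ℝ≥0∞) + 2) ^ N * ENNReal.ofReal (wt N (zc j - x))) *
        (A j).indicator F z := lintegral_mono hpt
    _ = ∑' j : Zi m, (((m : ℝ≥0∞) + 2) ^ N * ENNReal.ofReal (wt N (zc j - x))) *
        ∫⁻ z in A j, F z := by
        rw [lintegral_tsum fun j => ((hFm.indicator (hAm j)).const_mul _).aemeasurable]
        refine tsum_congr fun j => ?_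
        rw [lintegral_const_mul _ (hFm.indicator (hAm j)), lintegral_indicator (hAm j)]
    _ ≤ ∑' j : Zi m, (((m : ℝ≥0∞) + 2) ^ N * ENNReal.ofReal (wt N (zc j - x))) *
        (C₁ * ∑ k ∈ I, ∫⁻ z, ‖TF (G k) z‖ₑ ^ 2 *
          ENNReal.ofReal (wt N (r⁻¹ • Lo η s z - zc j))) := by
        gcongr with j
        exact h1 ι I G c σ s r η (zc j) hσ hs hr hsr hcη hTC hcap hmul
    _ = ((m : ℝ≥0∞) + 2) ^ N * C₁ * ∑ k ∈ I, ∫⁻ z, ‖TF (G k) z‖ₑ ^ 2 *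
        ∑' j : Zi m, ENNReal.ofReal (wt N (r⁻¹ • Lo η s z - zc j) * wt N (zc j - x)) := by
        have e1 : ∀ k ∈ I, ∫⁻ z, ‖TF (G k) z‖ₑ ^ 2 * ∑' j : Zi m,
            ENNReal.ofReal (wt N (r⁻¹ • Lo η s z - zc j) * wt N (zc j - x)) =
            ∑' j : Zi m, ENNReal.ofReal (wt N (zc j - x)) *
              ∫⁻ z, ‖TF (G k) z‖ₑ ^ 2 * ENNReal.ofReal (wt N (r⁻¹ • Lo η s z - zc j)) := by
          intro k hk
          have hm : ∀ j : Zi m, Measurable (fun z : Z m => ‖TF (G k) z‖ₑ ^ 2 *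
              ENNReal.ofReal (wt N (r⁻¹ • Lo η s z - zc j))) := by
            intro j
            have h5 : Continuous (fun z : Z m => wt N (r⁻¹ • Lo η s z - zc j)) :=
              hwc.comp (by fun_prop)
            exact ((hcTF k hk).enorm.measurable.pow_const 2).mul h5.measurable.ennreal_ofReal
          calc _ = ∫⁻ z, ∑' j : Zi m, ENNReal.ofReal (wt N (zc j - x)) * (‖TF (G k) z‖ₑ ^ 2 *
                ENNReal.ofReal (wt N (r⁻¹ • Lo η s z - zc j))) := by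
                refine lintegral_congr fun z => ?_
                rw [← ENNReal.tsum_mul_left]
                refine tsum_congr fun j => ?_
                rw [ENNReal.ofReal_mul (hw1 _).1.le]
                ring
            _ = ∑' j : Zi m, ∫⁻ z, ENNReal.ofReal (wt N (zc j - x)) * (‖TF (G k) z‖ₑ ^ 2 *
                ENNReal.ofReal (wt N (r⁻¹ • Lo η s z - zc j))) :=
                lintegral_tsum fun j => ((hm j).const_mul _).aemeasurable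
            _ = _ := tsum_congr fun j => lintegral_const_mul _ (hm j)
        rw [Finset.sum_congr rfl e1, ← Summable.tsum_finsetSum (fun _ _ => ENNReal.summable),
          ← ENNReal.tsum_mul_left]
        refine tsum_congr fun j => ?_
        rw [← Finset.mul_sum]
        ring
    _ ≤ ((m : ℝ≥0∞) + 2) ^ N * C₁ * ∑ k ∈ I, ∫⁻ z, ‖TF (G k) z‖ₑ ^ 2 *
        (C₂ * ENNReal.ofReal (wt N (r⁻¹ • Lo η s z - x))) := by
        gcongr with k hk z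
        exact h2 _ _
    _ = _ := by
        have e1 : ∀ k ∈ I, ∫⁻ z, ‖TF (G k) z‖ₑ ^ 2 *
            ((C₂ : ℝ≥0∞) * ENNReal.ofReal (wt N (r⁻¹ • Lo η s z - x))) =
            (C₂ : ℝ≥0∞) * ∫⁻ z, ‖TF (G k) z‖ₑ ^ 2 *
              ENNReal.ofReal (wt N (r⁻¹ • Lo η s z - x)) := by
          intro k _
          rw [← lintegral_const_mul' _ _ ENNReal.coe_ne_top]
          refine lintegral_congr fun z => ?_
          ring
        rw [Finset.sum_congr rfl e1, ← Finset.mul_sum]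
        push_cast
        ring

end Pool.Agent.H39.G
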