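import Pool.Agent.H83.G.Targets2
import Pool.Agent.H39.G.LO

/-!
# (CLR) square functions of caps
-/

set_option autoImplicit false

namespace Pool.Agent.H39.G

open MeasureTheory Set Pool.Agent.H83.G
open scoped ENNReal NNReal RealInnerProductSpace

variable {m : ℕ}

/-- the indices of the caps of radius `1` near the origin -/
noncomputable def Jn (m : ℕ) (D : ℝ) : Finset (Fin m → ℤ) :=
  Fintype.piFinset fun _ => Finset.Icc (-⌈((m : ℝ) + 1) * (D + 3)⌉) ⌈((m : ℝ) + 1) * (D + 3)⌉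

theorem ctr_one (k : Fin m → ℤ) (i : Fin m) : (ctr 1 k : E m) i = (1 / ((m : ℝ) + 1)) * k i := by
  unfold ctr
  simp

theorem not_Jn {D : ℝ} {k : Fin m → ℤ} (hk : k ∉ Jn m D) : D + 3 ≤ ‖(ctr 1 k : E m)‖ := by
  unfold Jn at hk
  rw [Fintype.mem_piFinset] at hk
  push Not at hk
  obtain ⟨i, hi⟩ := hk
  rw [Finset.mem_Icc, not_and_or] at hi
  have hm : (0 : ℝ) < (m : ℝ) + 1 := by positivity
  have h1 : ((m : ℝ) + 1) * (D + 3) ≤ |(k i : ℝ)| := by
    rcases hi with hi | hi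
    · have h2 : k i ≤ -⌈((m : ℝ) + 1) * (D + 3)⌉ := by omega
      have h3 : (k i : ℝ) ≤ -(⌈((m : ℝ) + 1) * (D + 3)⌉ : ℝ) := by exact_mod_cast h2
      have h4 := Int.le_ceil (((m : ℝ) + 1) * (D + 3))
      have h5 := neg_abs_le (k i : ℝ)
      linarith
    · have h2 : ⌈((m : ℝ) + 1) * (D + 3)⌉ ≤ k i := by omega
      have h3 : (⌈((m : ℝ) + 1) * (D + 3)⌉ : ℝ) ≤ k i := by exact_mod_cast h2
      have h4 := Int.le_ceil (((m : ℝ) + 1) * (D + 3))
      have h5 := le_abs_self (k i : ℝ)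
      linarith
  have h2 : ‖(ctr 1 k : E m) i‖ ≤ ‖(ctr 1 k : E m)‖ := PiLp.norm_apply_le _ i
  rw [ctr_one, norm_mul, Real.norm_eq_abs, Real.norm_eq_abs, abs_of_pos (by positivity)] at h2
  refine le_trans ?_ h2
  rw [one_div, ← div_eq_inv_mul, le_div_iff₀ hm]
  linarith

/-- the partition of unity near the origin -/
theorem sum_Jn {β : E m → ℂ} (hβ : IsPU β) {D : ℝ} {x : E m} (hx : ‖x‖ ≤ D + 1) :
    ∑ k ∈ Jn m D, β (x - ctr 1 k) = 1 := by
  obtain ⟨-, h1, -, h2⟩ := hβ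
  refine (hasSum_sum_of_ne_finset_zero fun k hk => ?_).unique (h2 x)
  apply h1
  have h3 := not_Jn hk
  have h4 := norm_sub_norm_le (ctr 1 k : E m) x
  rw [norm_sub_rev] at h4
  linarith

theorem cp_shift (β : E m → ℂ) (η : E m) {s : ℝ} (hs : 0 < s) (k : Fin m → ℤ) (ζ : Z m) :
    cp β (η + s • ctr 1 k) s ζ = β (s⁻¹ • (ζ.1⁻¹ • ζ.2.1 - η) - ctr 1 k) := by
  unfold cp
  congr 1
  rw [← sub_sub, smul_sub s⁻¹ (ζ.1⁻¹ • ζ.2.1 - η), smul_smul, inv_mul_cancel₀ hs.ne', one_smul]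

theorem TP_smul (c : ℂ) (φ : E m → ℂ) (η : E m) (s : ℝ) (G : Z m → ℂ) (z : Z m) :
    TP (fun x => c * φ x) η s G z = c * TP φ η s G z := by
  unfold TP TF cp
  rw [← integral_const_mul]
  congr 1
  funext ζ
  ring

/-- CLR: square functions of caps of radius `σ` -/
theorem pf_CLR (hRLO : T_RLO) (hPUS : T_PUS) (hPUB : T_PUB) (hCPS : T_CPS) (hAVG : T_AVG)
    (hSCH : T_SCH) (hLOA : T_LOA) (hLOB : T_LOB) : T_CLR := by
  classical
  intro m L β δ D hβ hδ hD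
  obtain ⟨N', hN'⟩ := exists_nat_ge ((m : ℝ) * ((m : ℝ) + 2) / (2 * δ))
  obtain ⟨C₁, h1⟩ := hRLO m N' D β hD hβ
  obtain ⟨-, -, C₂, hC₂, -, h2, -⟩ := hPUS m
  obtain ⟨C₃, hC₃, h3⟩ := hPUB m L β hβ
  obtain ⟨C₄, h4⟩ := hAVG m (m + 3) le_rfl
  obtain ⟨hadd, -, -, hcomp, -, -⟩ := hLOA m
  set D' : ℝ := ∑ j ∈ Jn m D, ‖(ctr 1 j : E m)‖ with hD'
  have hD'0 : 0 ≤ D' := Finset.sum_nonneg fun j _ => norm_nonneg _
  have hDj : ∀ j ∈ Jn m D, ‖(ctr 1 j : E m)‖ ≤ D' := fun j hj =>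
    Finset.single_le_sum (f := fun j => ‖(ctr 1 j : E m)‖) (fun j _ => norm_nonneg _) hj
  obtain ⟨hLO1, -⟩ := hLOB m D' hD'0
  set M : ℝ := (1 + D') ^ 2 with hM
  have hM0 : 0 < M := by positivity
  -- the constant of the `L²` bound
  set K₁ : ℝ := ((Jn m D).card : ℝ) * ((Jn m D).card : ℝ) * ((1 + M) ^ (m + 3) * C₄ * C₃ ^ 2)
    with hK₁
  have hK₁0 : 0 ≤ K₁ := by positivity
  set K₂ : ℝ := 1 + C₂ * (1 + D) ^ m with hK₂
  have hK₂0 : 0 < K₂ := by positivity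
  refine ⟨C₁ * K₂ * K₁ + 1, by positivity, ?_⟩
  intro κ R A G σ s r η z₀ I hκ hκ2 hR hA hG hσR hσs hs hs1 hr hrR hsr hI
  obtain ⟨hTC, hsupp, hcls⟩ := hG
  have hR0 : 0 < R := by linarith
  have hsR : 0 < sR R := by unfold sR; positivity
  have hσ : 0 < σ := lt_of_lt_of_le hsR hσR
  have hr0 : 0 < r := by linarith
  set Q : ℝ := A ^ 2 * (R * s ^ 2 / r) ^ m * (r / s) ^ (m + 2) with hQ
  have hQ0 : 0 ≤ Q := by positivity
  have hc14 : ∀ ζ, G ζ ≠ 0 → 1 / 4 ≤ ζ.1 := by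
    intro ζ hζ
    have := (hsupp ζ hζ).1
    linarith
  -- the pieces
  set P : (Fin m → ℤ) → Z m → ℂ := fun j ζ => cp β (η + s • ctr 1 j) s ζ * G ζ with hP
  have hPT : ∀ j, TC (P j) := fun j => hCPS m β _ s G hβ.1 hs hTC hc14
  set G' : Z m → ℂ := fun ζ => ∑ j ∈ Jn m D, P j ζ with hG'
  have hG'T : TC G' := TC_sum _ P fun j _ => hPT j
  have hG's : ∀ ζ, G' ζ ≠ 0 → 1 / 2 ≤ ζ.1 ∧ ζ.1 ≤ 6 := by
    intro ζ hζ
    have h5 : G ζ ≠ 0 := by
      intro h0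
      apply hζ
      rw [hG']
      simp only [hP, h0, mul_zero, Finset.sum_const_zero]
    have h6 := hsupp ζ h5
    exact ⟨by linarith [h6.1], by linarith [h6.2.1]⟩
  have hcpG : ∀ k ∈ I, ∀ z, TP β (ctr σ k) σ G z = TP β (ctr σ k) σ G' z := by
    intro k hk z
    unfold TP
    congr 1
    funext ζ
    by_cases h0 : cp β (ctr σ k) σ ζ = 0
    · rw [h0, zero_mul, zero_mul]
    · have h5 : ‖σ⁻¹ • (ζ.1⁻¹ • ζ.2.1 - ctr σ k)‖ < 1 := by
        by_contra hcon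
        push Not at hcon
        exact h0 (hβ.2.1 _ hcon)
      rw [norm_smul, Real.norm_eq_abs, abs_of_pos (inv_pos.2 hσ), inv_mul_lt_iff₀ hσ, mul_one] at h5
      have h6 : ‖s⁻¹ • (ζ.1⁻¹ • ζ.2.1 - η)‖ ≤ D + 1 := by
        rw [norm_smul, Real.norm_eq_abs, abs_of_pos (inv_pos.2 hs), inv_mul_le_iff₀ hs]
        have h7 : ζ.1⁻¹ • ζ.2.1 - η = (ζ.1⁻¹ • ζ.2.1 - ctr σ k) + (ctr σ k - η) := by abel
        rw [h7]
        refine (norm_add_le _ _).trans ?_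
        have := hI k hk
        nlinarith
      have h7 : G' ζ = G ζ := by
        rw [hG']
        simp only [hP, cp_shift β η hs]
        rw [← Finset.sum_mul, sum_Jn hβ h6, one_mul]
      rw [h7]
  -- the `L²` bound of the pieces
  have hpiece : ∀ j ∈ Jn m D, ∀ z₁, ∫⁻ z in pl η s r z₁, ‖TF (P j) z‖ₑ ^ 2 ≤
      ENNReal.ofReal ((1 + M) ^ (m + 3) * C₄ * C₃ ^ 2 * Q) := by
    intro j hj z₁
    have hC0 : ((C₃⁻¹ : ℝ) : ℂ) ≠ 0 := by
      have : C₃ ≠ 0 := by linarith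
      simpa using this
    have h5 : ∀ z₂, ∫⁻ z in pl (η + s • ctr 1 j) s r z₂, ‖TF (P j) z‖ₑ ^ 2 ≤
        ENNReal.ofReal (C₃ ^ 2 * Q) := by
      intro z₂
      have h6 := hcls _ h3 (η + s • ctr 1 j) s r z₂ hs hs1 hr hrR
      have h7 : ∀ z, ‖TF (P j) z‖ₑ ^ 2 = ENNReal.ofReal (C₃ ^ 2) *
          ‖TP (fun x => ((C₃⁻¹ : ℝ) : ℂ) * β x) (η + s • ctr 1 j) s G z‖ₑ ^ 2 := by
        intro z
        rw [TP_smul, enorm_sq_eq, enorm_sq_eq, ← ENNReal.ofReal_mul (by positivity), norm_mul,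
          Complex.norm_real, Real.norm_eq_abs, abs_of_pos (by positivity)]
        congr 1
        have : C₃ ≠ 0 := by linarith
        have h8 : TF (P j) z = TP β (η + s • ctr 1 j) s G z := rfl
        rw [h8]
        field_simp
      simp only [h7]
      rw [lintegral_const_mul' _ _ ENNReal.ofReal_ne_top, ENNReal.ofReal_mul (by positivity)]
      gcongr
    have hm : Measurable (fun z => ‖TF (P j) z‖ₑ ^ 2) :=
      (hSCH m _ (hPT j)).1.enorm.measurable.pow_const 2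
    have h6 := h4 (fun z => ‖TF (P j) z‖ₑ ^ 2) (η + s • ctr 1 j) s r 1
      (r⁻¹ • Lo (η + s • ctr 1 j) s z₁) _ hm hs hr0 one_pos le_rfl h5
    have h7 : ∀ z ∈ pl η s r z₁, ‖TF (P j) z‖ₑ ^ 2 ≤ ENNReal.ofReal ((1 + M) ^ (m + 3)) *
        (‖TF (P j) z‖ₑ ^ 2 * ENNReal.ofReal (wt (m + 3) ((1 : ℝ) • r⁻¹ • Lo (η + s • ctr 1 j) s z -
          r⁻¹ • Lo (η + s • ctr 1 j) s z₁))) := by
      intro z hz
      have h8 : ‖r⁻¹ • Lo (η + s • ctr 1 j) s z - r⁻¹ • Lo (η + s • ctr 1 j) s z₁‖ ≤ M := by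
        rw [← smul_sub, ← (hadd (η + s • ctr 1 j) s z z₁).2.1, norm_smul, Real.norm_eq_abs,
          abs_of_pos (inv_pos.2 hr0), inv_mul_le_iff₀ hr0]
        have h9 := (hcomp η (ctr 1 j) s 1 (z - z₁)).1
        rw [mul_one] at h9
        rw [← h9]
        have h10 := (hLO1 (ctr 1 j) 1 (Lo η s (z - z₁)) (hDj j hj) zero_le_one le_rfl).1
        have h11 : ‖Lo η s (z - z₁)‖ ≤ r := hz
        calc _ ≤ M * ‖Lo η s (z - z₁)‖ := h10
          _ ≤ M * r := mul_le_mul_of_nonneg_left h11 hM0.le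
          _ = r * M := mul_comm _ _
      have h9 : 1 ≤ ENNReal.ofReal ((1 + M) ^ (m + 3)) *
          ENNReal.ofReal (wt (m + 3) ((1 : ℝ) • r⁻¹ • Lo (η + s • ctr 1 j) s z -
            r⁻¹ • Lo (η + s • ctr 1 j) s z₁)) := by
        rw [← ENNReal.ofReal_mul (by positivity), one_smul]
        apply ENNReal.one_le_ofReal.2
        unfold wt
        rw [← div_eq_mul_inv, one_le_div (by positivity)]
        apply pow_le_pow_left₀ (by positivity)
        linarith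
      rw [mul_left_comm]
      exact le_mul_of_one_le_right bot_le h9
    have hplm : MeasurableSet (pl η s r z₁) := by
      have h8 : Continuous (fun z : Z m => ‖Lo η s (z - z₁)‖) :=
        ((cont_Lo η s).comp (continuous_id.sub continuous_const)).norm
      exact measurableSet_le h8.measurable measurable_const
    calc ∫⁻ z in pl η s r z₁, ‖TF (P j) z‖ₑ ^ 2
        ≤ ∫⁻ z in pl η s r z₁, ENNReal.ofReal ((1 + M) ^ (m + 3)) *
          (‖TF (P j) z‖ₑ ^ 2 * ENNReal.ofReal (wt (m + 3) ((1 : ℝ) • r⁻¹ •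
            Lo (η + s • ctr 1 j) s z - r⁻¹ • Lo (η + s • ctr 1 j) s z₁))) :=
          setLIntegral_mono_ae' hplm (Filter.Eventually.of_forall h7)
      _ ≤ ∫⁻ z, ENNReal.ofReal ((1 + M) ^ (m + 3)) *
          (‖TF (P j) z‖ₑ ^ 2 * ENNReal.ofReal (wt (m + 3) ((1 : ℝ) • r⁻¹ •
            Lo (η + s • ctr 1 j) s z - r⁻¹ • Lo (η + s • ctr 1 j) s z₁))) :=
          setLIntegral_le_lintegral _ _
      _ ≤ ENNReal.ofReal ((1 + M) ^ (m + 3)) * ((C₄ : ℝ≥0∞) *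
          ENNReal.ofReal (((1 : ℝ)⁻¹) ^ (m + 2)) * ENNReal.ofReal (C₃ ^ 2 * Q)) := by
          rw [lintegral_const_mul' _ _ ENNReal.ofReal_ne_top]
          gcongr
      _ = _ := by
          rw [inv_one, one_pow, ENNReal.ofReal_one, mul_one,
            show ((C₄ : ℝ≥0∞)) = ENNReal.ofReal (C₄ : ℝ) by rw [ENNReal.ofReal_coe_nnreal],
            ← ENNReal.ofReal_mul (NNReal.coe_nonneg _), ← ENNReal.ofReal_mul (by positivity)]
          congr 1
          ring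
  have hL2 : ∀ z₁, ∫⁻ z in pl η s r z₁, ‖TF G' z‖ₑ ^ 2 ≤ ENNReal.ofReal (K₁ * Q) := by
    intro z₁
    have h5 : ∀ z, ‖TF G' z‖ₑ ^ 2 ≤ ((Jn m D).card : ℝ≥0∞) * ∑ j ∈ Jn m D, ‖TF (P j) z‖ₑ ^ 2 := by
      intro z
      rw [hG', TF_sum _ P fun j _ => hPT j]
      exact sum_sq_le _ _ _ fun J hJ _ => Finset.card_le_card hJ
    calc ∫⁻ z in pl η s r z₁, ‖TF G' z‖ₑ ^ 2
        ≤ ∫⁻ z in pl η s r z₁, ((Jn m D).card : ℝ≥0∞) * ∑ j ∈ Jn m D, ‖TF (P j) z‖ₑ ^ 2 :=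
          lintegral_mono h5
      _ = ((Jn m D).card : ℝ≥0∞) * ∑ j ∈ Jn m D, ∫⁻ z in pl η s r z₁, ‖TF (P j) z‖ₑ ^ 2 := by
          rw [lintegral_const_mul' _ _ (ENNReal.natCast_ne_top _), lintegral_finsetSum']
          intro j _
          exact ((hSCH m _ (hPT j)).1.enorm.measurable.pow_const 2).aemeasurable
      _ ≤ ((Jn m D).card : ℝ≥0∞) * ∑ j ∈ Jn m D,
          ENNReal.ofReal ((1 + M) ^ (m + 3) * C₄ * C₃ ^ 2 * Q) := by
          gcongr with j hj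
          exact hpiece j hj z₁
      _ = ENNReal.ofReal (K₁ * Q) := by
          rw [Finset.sum_const, nsmul_eq_mul, ← ENNReal.ofReal_natCast,
            ← ENNReal.ofReal_mul (by positivity), ← ENNReal.ofReal_mul (by positivity)]
          congr 1
          rw [hK₁]
          ring
  -- reverse orthogonality
  set lam : ℝ := R ^ (δ / ((m : ℝ) + 2)) with hlam
  have hm2 : (0 : ℝ) < (m : ℝ) + 2 := by positivity
  have hlam1 : 1 ≤ lam := Real.one_le_rpow hR (by positivity)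
  have h5 := h1 lam σ s r η z₀ G' I (ENNReal.ofReal (K₁ * Q)) hlam1 hσ hs hr
    (by
      have : r * σ ≤ D * r * σ := by nlinarith [mul_pos hr0 hσ]
      linarith)
    (fun k hk => by
      have := hI k hk
      nlinarith [mul_le_mul_of_nonneg_left hsr (by linarith : (0 : ℝ) ≤ D)])
    hG'T hG's hL2
  have h6 : lam ^ (m + 2) = R ^ δ := by
    rw [hlam, ← Real.rpow_natCast, ← Real.rpow_mul hR0.le]
    congr 1
    push_cast
    field_simp
  have h7 : (I.card : ℝ) * (lam ^ N')⁻¹ ≤ C₂ * (1 + D) ^ m := by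
    have h8 : (I.card : ℝ) ≤ C₂ * (1 + D * s / σ) ^ m :=
      h2 σ (D * s) η I hσ (by positivity) hI
    have hsq : 1 ≤ Real.sqrt R := by rw [Real.one_le_sqrt]; exact hR
    have h9 : D * s / σ ≤ D * Real.sqrt R := by
      rw [div_le_iff₀ hσ]
      have h10 : 1 ≤ Real.sqrt R * σ := by
        have : Real.sqrt R * sR R = 1 := by
          unfold sR
          rw [mul_inv_cancel₀]
          linarith
        calc 1 = Real.sqrt R * sR R := this.symm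
          _ ≤ Real.sqrt R * σ := mul_le_mul_of_nonneg_left hσR (by linarith)
      calc D * s ≤ D * 1 := mul_le_mul_of_nonneg_left hs1 (by linarith)
        _ ≤ D * (Real.sqrt R * σ) := mul_le_mul_of_nonneg_left h10 (by linarith)
        _ = D * Real.sqrt R * σ := by ring
    have h10 : 1 + D * s / σ ≤ (1 + D) * Real.sqrt R := by
      nlinarith
    have h11 : (Real.sqrt R) ^ m ≤ lam ^ N' := by
      rw [hlam, ← Real.rpow_natCast, ← Real.rpow_natCast, ← Real.rpow_mul hR0.le,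
        Real.sqrt_eq_rpow, ← Real.rpow_mul hR0.le]
      apply Real.rpow_le_rpow_of_exponent_le hR
      rw [div_le_iff₀ (by positivity)] at hN'
      rw [div_mul_eq_mul_div, div_mul_eq_mul_div, div_le_div_iff₀ (by norm_num) hm2]
      nlinarith
    have h12 : 0 < lam ^ N' := by positivity
    rw [← div_eq_mul_inv, div_le_iff₀ h12]
    calc (I.card : ℝ) ≤ C₂ * (1 + D * s / σ) ^ m := h8
      _ ≤ C₂ * ((1 + D) * Real.sqrt R) ^ m := by
          apply mul_le_mul_of_nonneg_left _ hC₂.le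
          exact pow_le_pow_left₀ (by positivity) h10 m
      _ = C₂ * (1 + D) ^ m * (Real.sqrt R) ^ m := by rw [mul_pow]; ring
      _ ≤ C₂ * (1 + D) ^ m * lam ^ N' := mul_le_mul_of_nonneg_left h11 (by positivity)
  have h8 : lam ^ (m + 2) + (I.card : ℝ) * (lam ^ N')⁻¹ ≤ K₂ * R ^ δ := by
    have h9 : 1 ≤ R ^ δ := Real.one_le_rpow hR hδ.le
    rw [h6, hK₂]
    have h10 : 0 ≤ C₂ * (1 + D) ^ m := by positivity
    nlinarith
  have h9 : ∑ k ∈ I, ∫⁻ z in pl η s r z₀, ‖TP β (ctr σ k) σ G z‖ₑ ^ 2 =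
      ∑ k ∈ I, ∫⁻ z in pl η s r z₀, ‖TP β (ctr σ k) σ G' z‖ₑ ^ 2 := by
    refine Finset.sum_congr rfl fun k hk => ?_
    refine lintegral_congr fun z => ?_
    rw [hcpG k hk z]
  rw [h9]
  refine h5.trans ?_
  rw [show ((C₁ : ℝ≥0∞)) = ENNReal.ofReal (C₁ : ℝ) by rw [ENNReal.ofReal_coe_nnreal],
    ← ENNReal.ofReal_mul (NNReal.coe_nonneg _), ← ENNReal.ofReal_mul (by positivity)]
  apply ENNReal.ofReal_le_ofReal
  have hRδ : 0 < R ^ δ := Real.rpow_pos_of_pos hR0 _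
  calc (C₁ : ℝ) * (lam ^ (m + 2) + (I.card : ℝ) * (lam ^ N')⁻¹) * (K₁ * Q)
      ≤ (C₁ : ℝ) * (K₂ * R ^ δ) * (K₁ * Q) := by
        apply mul_le_mul_of_nonneg_right _ (by positivity)
        exact mul_le_mul_of_nonneg_left h8 (NNReal.coe_nonneg _)
    _ = (C₁ * K₂ * K₁) * R ^ δ * Q := by ring
    _ ≤ (C₁ * K₂ * K₁ + 1) * R ^ δ * Q := by
        apply mul_le_mul_of_nonneg_right _ hQ0
        exact mul_le_mul_of_nonneg_right (by linarith) hRδ.le

end Pool.Agent.H39.G
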